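import Pool.Agent.Helper37.RT.Defs

/-!
Row T2 of the RT sheet (MP_b01677_an, Q1, d = 2): the tent and the Haar function.
-/

namespace Pool.Agent.Helper37.RT

open MeasureTheory Set Filter Topology

theorem tent_nonneg (t : ℝ) : 0 ≤ tent t := le_max_left _ _

theorem tent_le_one (t : ℝ) : tent t ≤ 1 :=
  max_le zero_le_one (by linarith [abs_nonneg (2 * t - 1)])

theorem tent_continuous : Continuous tent := by
  unfold tent
  fun_prop

theorem tent_zero {t : ℝ} (h : t ≤ 0 ∨ 1 ≤ t) : tent t = 0 := by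
  apply max_eq_left
  rcases h with h | h
  · have : -(2 * t - 1) ≤ |2 * t - 1| := neg_le_abs _
    linarith
  · have : 2 * t - 1 ≤ |2 * t - 1| := le_abs_self _
    linarith

theorem tent_lip (s t : ℝ) : |tent s - tent t| ≤ 2 * |s - t| := by
  unfold tent
  have h1 : |max 0 (1 - |2 * s - 1|) - max 0 (1 - |2 * t - 1|)|
      ≤ |(1 - |2 * s - 1|) - (1 - |2 * t - 1|)| := by
    have := abs_max_sub_max_le_max (0 : ℝ) (1 - |2 * s - 1|) 0 (1 - |2 * t - 1|)
    simpa using this
  refine h1.trans ?_
  have h2 : |(1 - |2 * s - 1|) - (1 - |2 * t - 1|)| = |(|2 * t - 1| - |2 * s - 1|)| := by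
    congr 1; ring
  rw [h2]
  refine (abs_abs_sub_abs_le (2 * t - 1) (2 * s - 1)).trans ?_
  have h3 : 2 * t - 1 - (2 * s - 1) = -(2 * (s - t)) := by ring
  rw [h3, abs_neg, abs_mul]
  norm_num

theorem haar_measurable : Measurable haar := by
  unfold haar
  refine Measurable.ite ?_ measurable_const (Measurable.ite ?_ measurable_const measurable_const)
  · exact measurableSet_Ico
  · exact measurableSet_Ico

theorem haar_abs (t : ℝ) : |haar t| ≤ 1 := by
  unfold haar
  split_ifs <;> norm_num

theorem haar_zero {t : ℝ} (h : t < 0 ∨ 1 ≤ t) : haar t = 0 := by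
  unfold haar
  rw [if_neg, if_neg]
  · rintro ⟨h1, h2⟩; rcases h with h | h <;> linarith
  · rintro ⟨h1, h2⟩; rcases h with h | h <;> linarith

theorem t2_haar_left {t : ℝ} (h : 0 ≤ t) (h' : t < 1 / 2) : haar t = 1 := by
  unfold haar
  rw [if_pos ⟨h, h'⟩]

theorem t2_haar_right {t : ℝ} (h : 1 / 2 ≤ t) (h' : t < 1) : haar t = -1 := by
  unfold haar
  rw [if_neg, if_pos ⟨h, h'⟩]
  rintro ⟨_, h2⟩; linarith

theorem t2_tent_left {t : ℝ} (h : 0 ≤ t) (h' : t ≤ 1 / 2) : tent t = 2 * t := by
  unfold tent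
  rw [abs_of_nonpos (by linarith), max_eq_right (by linarith)]
  ring

theorem t2_tent_right {t : ℝ} (h : 1 / 2 ≤ t) (h' : t ≤ 1) : tent t = 2 - 2 * t := by
  unfold tent
  rw [abs_of_nonneg (by linarith), max_eq_right (by linarith)]
  ring

theorem t2_deriv (x : ℝ) : HasDerivWithinAt tent (2 * haar x) (Ioi x) x := by
  rcases lt_or_ge x 0 with h | h
  · rw [haar_zero (Or.inl h), mul_zero]
    refine (hasDerivWithinAt_const x (Ioi x) (0 : ℝ)).congr_of_eventuallyEq ?_
      (tent_zero (Or.inl h.le))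
    filter_upwards [Ioo_mem_nhdsGT h] with y hy
    exact tent_zero (Or.inl hy.2.le)
  rcases lt_or_ge x (1 / 2) with h1 | h1
  · rw [t2_haar_left h h1]
    have hd : HasDerivWithinAt (fun t : ℝ => 2 * t) (2 * 1) (Ioi x) x :=
      (hasDerivWithinAt_id x _).const_mul 2
    refine hd.congr_of_eventuallyEq ?_ (t2_tent_left h h1.le)
    filter_upwards [Ioo_mem_nhdsGT h1] with y hy
    exact t2_tent_left (h.trans hy.1.le) hy.2.le
  rcases lt_or_ge x 1 with h2 | h2
  · rw [t2_haar_right h1 h2]
    have hd : HasDerivWithinAt (fun t : ℝ => 2 - 2 * t) (-(2 * 1)) (Ioi x) x :=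
      ((hasDerivWithinAt_id x _).const_mul 2).const_sub 2
    have hd' : HasDerivWithinAt (fun t : ℝ => 2 - 2 * t) (2 * -1) (Ioi x) x := by
      rw [show (2 : ℝ) * -1 = -(2 * 1) by ring]; exact hd
    refine hd'.congr_of_eventuallyEq ?_ (t2_tent_right h1 h2.le)
    filter_upwards [Ioo_mem_nhdsGT h2] with y hy
    exact t2_tent_right (h1.trans hy.1.le) hy.2.le
  · rw [haar_zero (Or.inr h2), mul_zero]
    refine (hasDerivWithinAt_const x (Ioi x) (0 : ℝ)).congr_of_eventuallyEq ?_
      (tent_zero (Or.inr h2))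
    filter_upwards [self_mem_nhdsWithin] with y hy
    exact tent_zero (Or.inr (h2.trans (le_of_lt hy)))

theorem t2_haar_ii (a b : ℝ) : IntervalIntegrable haar volume a b := by
  rw [intervalIntegrable_iff]
  refine Measure.integrableOn_of_bounded (M := 1) ?_ haar_measurable.aestronglyMeasurable ?_
  · simp
  · exact Eventually.of_forall fun t => by simpa using haar_abs t

theorem t2_ftc0 (a b : ℝ) : ∫ t in a..b, 2 * haar t = tent b - tent a :=
  intervalIntegral.integral_eq_sub_of_hasDeriv_right tent_continuous.continuousOn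
    (fun x _ => t2_deriv x) ((t2_haar_ii a b).const_mul 2)

theorem tent_ftc (a b c : ℝ) {N : ℝ} (hN : 0 < N) :
    tent (N * b - c) - tent (N * a - c) = ∫ t in a..b, 2 * N * haar (N * t - c) := by
  have h1 : ∫ t in a..b, 2 * N * haar (N * t - c)
      = N * ∫ t in a..b, (fun s => 2 * haar s) (N * t - c) := by
    rw [← intervalIntegral.integral_const_mul]
    congr 1
    ext t
    ring
  have h2 : ∫ t in a..b, (fun s => 2 * haar s) (N * t - c)
      = N⁻¹ • ∫ t in (N * a - c)..(N * b - c), (fun s => 2 * haar s) t :=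
    intervalIntegral.integral_comp_mul_sub (fun s => 2 * haar s) hN.ne' c
  rw [h1, h2]
  simp only
  rw [t2_ftc0, smul_eq_mul, ← mul_assoc, mul_inv_cancel₀ hN.ne', one_mul]

theorem t2_affine_int (f : ℝ → ℝ) {N : ℝ} (hN : 0 < N) (c : ℝ) :
    ∫ t, f (N * t - c) = 1 / N * ∫ t, f t := by
  have h1 : ∫ t, f (N * t - c) = |N⁻¹| • ∫ t, (fun s => f (s - c)) t :=
    Measure.integral_comp_mul_left (fun s => f (s - c)) N
  rw [h1, abs_of_pos (inv_pos.mpr hN), smul_eq_mul, one_div]
  congr 1
  exact integral_sub_right_eq_self f c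

theorem t2_tent_supp : Function.support tent ⊆ Ioc 0 1 := by
  intro t ht
  by_contra hcon
  apply ht
  apply tent_zero
  by_contra h2
  push Not at h2
  exact hcon ⟨h2.1, h2.2.le⟩

theorem t2_haar_supp : Function.support haar ⊆ Ico 0 1 := by
  intro t ht
  by_contra hcon
  apply ht
  apply haar_zero
  by_contra h2
  push Not at h2
  exact hcon ⟨h2.1, h2.2⟩

theorem t2_tent_int0 : ∫ t, tent t = 1 / 2 := by
  rw [← intervalIntegral.integral_eq_integral_of_support_subset t2_tent_supp]
  rw [← intervalIntegral.integral_add_adjacent_intervals (b := 1 / 2)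
    (tent_continuous.intervalIntegrable _ _) (tent_continuous.intervalIntegrable _ _)]
  have h1 : ∫ t in (0 : ℝ)..(1 / 2), tent t = ∫ t in (0 : ℝ)..(1 / 2), 2 * t := by
    apply intervalIntegral.integral_congr
    intro t ht
    rw [uIcc_of_le (by norm_num)] at ht
    exact t2_tent_left ht.1 ht.2
  have h2 : ∫ t in (1 / 2 : ℝ)..1, tent t = ∫ t in (1 / 2 : ℝ)..1, (2 - 2 * t) := by
    apply intervalIntegral.integral_congr
    intro t ht
    rw [uIcc_of_le (by norm_num)] at ht
    exact t2_tent_right ht.1 ht.2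
  have h3 : ∫ t in (1 / 2 : ℝ)..1, (2 - 2 * t)
      = (∫ _t in (1 / 2 : ℝ)..1, (2 : ℝ)) - ∫ t in (1 / 2 : ℝ)..1, 2 * t :=
    intervalIntegral.integral_sub (by simp) (Continuous.intervalIntegrable (by fun_prop) _ _)
  have h4 : ∫ t in (0 : ℝ)..(1 / 2), 2 * t = 1 / 4 := by
    rw [intervalIntegral.integral_const_mul, integral_id]; norm_num
  have h5 : ∫ t in (1 / 2 : ℝ)..1, 2 * t = 3 / 4 := by
    rw [intervalIntegral.integral_const_mul, integral_id]; norm_num
  have h6 : ∫ _t in (1 / 2 : ℝ)..1, (2 : ℝ) = 1 := by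
    rw [intervalIntegral.integral_const]; norm_num
  rw [h1, h2, h3, h4, h5, h6]
  norm_num

theorem t2_tent_sq_int0 : ∫ t, tent t ^ 2 = 1 / 3 := by
  have hs : Function.support (fun t => tent t ^ 2) ⊆ Ioc 0 1 := by
    intro t ht
    apply t2_tent_supp
    intro h0
    apply ht
    simp [h0]
  rw [← intervalIntegral.integral_eq_integral_of_support_subset hs]
  have hcont : Continuous (fun t => tent t ^ 2) := tent_continuous.pow 2
  rw [← intervalIntegral.integral_add_adjacent_intervals (b := 1 / 2)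
    (hcont.intervalIntegrable _ _) (hcont.intervalIntegrable _ _)]
  have h1 : ∫ t in (0 : ℝ)..(1 / 2), tent t ^ 2 = ∫ t in (0 : ℝ)..(1 / 2), 4 * t ^ 2 := by
    apply intervalIntegral.integral_congr
    intro t ht
    rw [uIcc_of_le (by norm_num)] at ht
    simp only
    rw [t2_tent_left ht.1 ht.2]; ring
  have h2 : ∫ t in (1 / 2 : ℝ)..1, tent t ^ 2 = ∫ t in (1 / 2 : ℝ)..1, (fun s => 4 * s ^ 2) (1 - t) := by
    apply intervalIntegral.integral_congr
    intro t ht
    rw [uIcc_of_le (by norm_num)] at ht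
    simp only
    rw [t2_tent_right ht.1 ht.2]; ring
  rw [h1, h2]
  rw [intervalIntegral.integral_comp_sub_left (fun s : ℝ => 4 * s ^ 2) 1]
  simp only [intervalIntegral.integral_const_mul, integral_pow]
  norm_num

theorem tent_int {N : ℝ} (hN : 0 < N) (c : ℝ) : ∫ t, tent (N * t - c) = 1 / (2 * N) := by
  rw [t2_affine_int tent hN c, t2_tent_int0]
  field_simp

theorem tent_sq_int {N : ℝ} (hN : 0 < N) (c : ℝ) : ∫ t, tent (N * t - c) ^ 2 = 1 / (3 * N) := by
  rw [t2_affine_int (fun s => tent s ^ 2) hN c, t2_tent_sq_int0]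
  field_simp

theorem t2_haar_sq (t : ℝ) : haar t ^ 2 = (Ico (0 : ℝ) 1).indicator (fun _ => (1 : ℝ)) t := by
  by_cases h : t ∈ Ico (0 : ℝ) 1
  · rw [indicator_of_mem h]
    rcases lt_or_ge t (1 / 2) with h1 | h1
    · rw [t2_haar_left h.1 h1]; norm_num
    · rw [t2_haar_right h1 h.2]; norm_num
  · rw [indicator_of_notMem h]
    have : haar t = 0 := by
      by_contra h0
      exact h (t2_haar_supp h0)
    rw [this]; norm_num

theorem haar_sq_int {N : ℝ} (hN : 0 < N) (c : ℝ) : ∫ t, haar (N * t - c) ^ 2 = 1 / N := by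
  rw [t2_affine_int (fun s => haar s ^ 2) hN c]
  have : ∫ t, haar t ^ 2 = 1 := by
    simp only [t2_haar_sq]
    rw [integral_indicator_const _ measurableSet_Ico]
    simp
  rw [this, mul_one]

theorem t2_haar_int0 : ∫ t, haar t = 0 := by
  have h1 : ∫ t, haar t = ∫ t in Ico (0 : ℝ) 1, haar t := by
    rw [setIntegral_eq_integral_of_forall_compl_eq_zero]
    intro x hx
    by_contra h0
    exact hx (t2_haar_supp h0)
  have h2 : ∫ t in Ico (0 : ℝ) 1, haar t = ∫ t in (0 : ℝ)..1, haar t := by
    rw [intervalIntegral.integral_of_le zero_le_one]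
    exact integral_Ico_eq_integral_Ioc
  have h3 := t2_ftc0 0 1
  rw [intervalIntegral.integral_const_mul, tent_zero (Or.inl le_rfl), tent_zero (Or.inr le_rfl)] at h3
  rw [h1, h2]
  linarith

theorem haar_int {N : ℝ} (hN : 0 < N) (c : ℝ) : ∫ t, haar (N * t - c) = 0 := by
  rw [t2_affine_int haar hN c, t2_haar_int0, mul_zero]

/-- the Haar function of a coarser level is constant on the support of a finer one -/
theorem t2_orth_lt {k k' c c' : ℕ} (h : k < k') :
    ∫ t, haar (2 ^ k * t - c) * haar (2 ^ k' * t - c') = 0 := by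
  obtain ⟨m, rfl⟩ : ∃ m, k' = k + 1 + m := ⟨k' - (k + 1), by omega⟩
  set q : ℕ := c' / 2 ^ m with hq
  have hq1 : q * 2 ^ m ≤ c' := Nat.div_mul_le_self _ _
  have hq2 : c' + 1 ≤ (q + 1) * 2 ^ m := by
    have := Nat.lt_div_mul_add (a := c') (b := 2 ^ m) (by positivity)
    rw [← hq] at this
    nlinarith
  have hq1' : (q : ℝ) * 2 ^ m ≤ c' := by exact_mod_cast hq1
  have hq2' : (c' : ℝ) + 1 ≤ ((q : ℝ) + 1) * 2 ^ m := by exact_mod_cast hq2
  have hmpos : (0 : ℝ) < 2 ^ m := by positivity
  set v : ℝ := if q = 2 * c then 1 else if q = 2 * c + 1 then -1 else 0 with hv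
  have key : ∀ t : ℝ, haar (2 ^ k * t - c) * haar (2 ^ (k + 1 + m) * t - c')
      = v * haar (2 ^ (k + 1 + m) * t - c') := by
    intro t
    by_cases h0 : haar (2 ^ (k + 1 + m) * t - c') = 0
    · rw [h0]; ring
    have hs := t2_haar_supp h0
    obtain ⟨hs1, hs2⟩ := hs
    congr 1
    set z : ℝ := 2 ^ k * t with hz
    have hzz : (2 : ℝ) ^ (k + 1 + m) * t = 2 * z * 2 ^ m := by
      rw [hz, pow_add, pow_add]; ring
    rw [hzz] at hs1 hs2
    have hz1 : (q : ℝ) ≤ 2 * z := by
      by_contra hcon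
      push Not at hcon
      have : 2 * z * 2 ^ m < (q : ℝ) * 2 ^ m := by
        exact mul_lt_mul_of_pos_right hcon hmpos
      linarith
    have hz2 : 2 * z < (q : ℝ) + 1 := by
      by_contra hcon
      push Not at hcon
      have : ((q : ℝ) + 1) * 2 ^ m ≤ 2 * z * 2 ^ m := by
        exact mul_le_mul_of_nonneg_right hcon hmpos.le
      linarith
    rw [hv]
    split_ifs with h1 h2
    · have : (q : ℝ) = 2 * c := by exact_mod_cast h1
      exact t2_haar_left (by linarith) (by linarith)
    · have : (q : ℝ) = 2 * c + 1 := by exact_mod_cast h2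
      exact t2_haar_right (by linarith) (by linarith)
    · apply haar_zero
      rcases lt_or_ge q (2 * c) with h3 | h3
      · left
        have : (q : ℝ) + 1 ≤ 2 * c := by exact_mod_cast h3
        linarith
      · right
        have h4 : 2 * c + 2 ≤ q := by omega
        have : (2 : ℝ) * c + 2 ≤ q := by exact_mod_cast h4
        linarith
  simp only [key]
  rw [integral_const_mul, haar_int (by positivity), mul_zero]

theorem haar_orth {k k' c c' : ℕ} (h : (k, c) ≠ (k', c')) :
    ∫ t, haar (2 ^ k * t - c) * haar (2 ^ k' * t - c') = 0 := by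
  rcases lt_trichotomy k k' with h1 | h1 | h1
  · exact t2_orth_lt h1
  · subst h1
    have hc : c ≠ c' := by
      intro h2; exact h (by rw [h2])
    have : ∀ t : ℝ, haar (2 ^ k * t - c) * haar (2 ^ k * t - c') = 0 := by
      intro t
      by_contra h0
      have h3 := t2_haar_supp (left_ne_zero_of_mul h0)
      have h4 := t2_haar_supp (right_ne_zero_of_mul h0)
      obtain ⟨h5, h6⟩ := h3
      obtain ⟨h7, h8⟩ := h4
      rcases lt_or_gt_of_ne hc with h9 | h9
      · have : (c : ℝ) + 1 ≤ c' := by exact_mod_cast h9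
        linarith
      · have : (c' : ℝ) + 1 ≤ c := by exact_mod_cast h9
        linarith
    simp [this]
  · have := t2_orth_lt (c := c') (c' := c) h1
    rw [← this]
    congr 1
    ext t
    ring

/-- pointwise bound for the difference of two values of the Haar function -/
theorem t2_haar_diff {s s' η : ℝ} (h : |s - s'| ≤ η) :
    |haar s - haar s'| ≤ (if |s| ≤ η then 1 else 0) + 2 * (if |s - 1 / 2| ≤ η then 1 else 0)
      + (if |s - 1| ≤ η then 1 else 0) := by
  rw [abs_le] at h
  have hb : |haar s - haar s'| ≤ 2 := by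
    have h1 := abs_sub (haar s) (haar s')
    have h2 := haar_abs s
    have h3 := haar_abs s'
    linarith
  have e1 : (0 : ℝ) ≤ (if |s| ≤ η then 1 else 0) := by split_ifs <;> norm_num
  have e2 : (0 : ℝ) ≤ (if |s - 1 / 2| ≤ η then 1 else 0) := by split_ifs <;> norm_num
  have e3 : (0 : ℝ) ≤ (if |s - 1| ≤ η then 1 else 0) := by split_ifs <;> norm_num
  by_cases hm : |s - 1 / 2| ≤ η
  · rw [if_pos hm]
    linarith
  rw [if_neg hm]
  rw [not_le, lt_abs] at hm
  by_cases h0 : |s| ≤ η
  · rw [if_pos h0]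
    by_cases h1 : |s - 1| ≤ η
    · rw [if_pos h1]; linarith
    rw [if_neg h1]
    rw [not_le, lt_abs] at h1
    rw [abs_le] at h0
    -- the values lie on the same side of 1/2 and 1
    unfold haar
    split_ifs <;> norm_num <;> (exfalso; rcases hm with hm | hm <;> rcases h1 with h1 | h1 <;> grind)
  rw [if_neg h0]
  rw [not_le, lt_abs] at h0
  by_cases h1 : |s - 1| ≤ η
  · rw [if_pos h1]
    rw [abs_le] at h1
    unfold haar
    split_ifs <;> norm_num <;> (exfalso; rcases hm with hm | hm <;> rcases h0 with h0 | h0 <;> grind)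
  rw [if_neg h1]
  rw [not_le, lt_abs] at h1
  unfold haar
  split_ifs <;> norm_num <;>
    (exfalso; rcases hm with hm | hm <;> rcases h0 with h0 | h0 <;> rcases h1 with h1 | h1 <;> grind)

theorem t2_strip {a b p η L : ℝ} (ha : 1 ≤ a) (hη : 0 ≤ η) :
    ∫ t in Icc (-L) L, (if |a * t + b - p| ≤ η then (1 : ℝ) else 0) ≤ 2 * η := by
  have ha0 : 0 < a := by linarith
  have hset : ∀ t : ℝ, (if |a * t + b - p| ≤ η then (1 : ℝ) else 0)
      = (Icc ((p - b - η) / a) ((p - b + η) / a)).indicator (fun _ => (1 : ℝ)) t := by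
    intro t
    by_cases h : |a * t + b - p| ≤ η
    · rw [if_pos h, indicator_of_mem]
      rw [abs_le] at h
      rw [mem_Icc, div_le_iff₀ ha0, le_div_iff₀ ha0]
      constructor <;> nlinarith
    · rw [if_neg h, indicator_of_notMem]
      intro h2
      apply h
      rw [mem_Icc, div_le_iff₀ ha0, le_div_iff₀ ha0] at h2
      rw [abs_le]
      constructor <;> nlinarith [h2.1, h2.2]
  simp only [hset]
  rw [integral_indicator_const _ measurableSet_Icc, smul_eq_mul, mul_one,
    measureReal_restrict_apply measurableSet_Icc]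
  have h1 : volume.real (Icc ((p - b - η) / a) ((p - b + η) / a) ∩ Icc (-L) L)
      ≤ volume.real (Icc ((p - b - η) / a) ((p - b + η) / a)) := by
    refine measureReal_mono inter_subset_left ?_
    rw [Real.volume_Icc]
    exact ENNReal.ofReal_ne_top
  refine h1.trans ?_
  rw [Real.volume_real_Icc]
  apply max_le _ (by positivity)
  have h2 : (p - b + η) / a - (p - b - η) / a = 2 * η / a := by ring
  rw [h2, div_le_iff₀ ha0]
  nlinarith

theorem t2_strip_ii {a b p η L : ℝ} :
    IntegrableOn (fun t => if |a * t + b - p| ≤ η then (1 : ℝ) else 0) (Icc (-L) L) volume := by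
  refine Measure.integrableOn_of_bounded (M := 1) (by simp) ?_ ?_
  · refine (Measurable.ite ?_ measurable_const measurable_const).aestronglyMeasurable
    exact measurableSet_le (by fun_prop) measurable_const
  · exact Eventually.of_forall fun t => by split_ifs <;> simp

/-- `L¹` continuity of the Haar function under affine changes of variable -/
theorem haar_affine {a b a' b' L : ℝ} (ha : 1 ≤ a) (ha' : 1 ≤ a') (hL : 0 ≤ L) :
    ∫ t in Icc (-L) L, |haar (a * t + b) - haar (a' * t + b')|
      ≤ 12 * (|a - a'| * L + |b - b'|) := by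
  set η : ℝ := |a - a'| * L + |b - b'| with hη
  have hη0 : 0 ≤ η := by positivity
  have hi0 : IntegrableOn (fun t => if |a * t + b - 0| ≤ η then (1 : ℝ) else 0) (Icc (-L) L) volume :=
    t2_strip_ii
  have hi1 : IntegrableOn (fun t => if |a * t + b - 1 / 2| ≤ η then (1 : ℝ) else 0) (Icc (-L) L)
    volume := t2_strip_ii
  have hi2 : IntegrableOn (fun t => if |a * t + b - 1| ≤ η then (1 : ℝ) else 0) (Icc (-L) L)
    volume := t2_strip_ii
  have hle : ∫ t in Icc (-L) L, |haar (a * t + b) - haar (a' * t + b')|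
      ≤ ∫ t in Icc (-L) L, (((if |a * t + b - 0| ≤ η then (1 : ℝ) else 0)
        + 2 * (if |a * t + b - 1 / 2| ≤ η then (1 : ℝ) else 0))
        + (if |a * t + b - 1| ≤ η then (1 : ℝ) else 0)) := by
    apply integral_mono_of_nonneg
    · exact Eventually.of_forall fun t => abs_nonneg _
    · exact (hi0.add (hi1.const_mul 2)).add hi2
    · refine ae_restrict_of_forall_mem measurableSet_Icc ?_
      intro t ht
      have h1 : |(a * t + b) - (a' * t + b')| ≤ η := by
        have h2 : (a * t + b) - (a' * t + b') = (a - a') * t + (b - b') := by ring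
        rw [h2]
        refine (abs_add_le _ _).trans ?_
        rw [abs_mul, hη]
        have h3 : |t| ≤ L := abs_le.mpr ht
        have h4 : |a - a'| * |t| ≤ |a - a'| * L := mul_le_mul_of_nonneg_left h3 (abs_nonneg _)
        linarith
      have h5 := t2_haar_diff h1
      simpa using h5
  refine hle.trans ?_
  have e1 : ∫ t in Icc (-L) L, (((if |a * t + b - 0| ≤ η then (1 : ℝ) else 0)
        + 2 * (if |a * t + b - 1 / 2| ≤ η then (1 : ℝ) else 0))
        + (if |a * t + b - 1| ≤ η then (1 : ℝ) else 0))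
      = (∫ t in Icc (-L) L, (if |a * t + b - 0| ≤ η then (1 : ℝ) else 0))
        + 2 * (∫ t in Icc (-L) L, (if |a * t + b - 1 / 2| ≤ η then (1 : ℝ) else 0))
        + ∫ t in Icc (-L) L, (if |a * t + b - 1| ≤ η then (1 : ℝ) else 0) := by
    have q1 := integral_add (μ := volume.restrict (Icc (-L) L)) (hi0.add (hi1.const_mul 2)) hi2
    have q2 := integral_add (μ := volume.restrict (Icc (-L) L)) hi0 (hi1.const_mul 2)
    rw [integral_const_mul] at q2
    rw [← q2]
    exact q1
  rw [e1]
  have s0 := t2_strip (b := b) (p := 0) (L := L) ha hη0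
  have s1 := t2_strip (b := b) (p := 1 / 2) (L := L) ha hη0
  have s2 := t2_strip (b := b) (p := 1) (L := L) ha hη0
  linarith

end Pool.Agent.Helper37.RT
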